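import Pool.Agent.R3M.Stmts

/-!
# R3M: small lemmas for all modules
-/

set_option autoImplicit false

namespace Pool.Agent.R3M.Kit

open Pool.Agent.R3M

variable {α : Type} [DecidableEq α]

/-! ### Exchanges -/

theorem card_exch {I : Finset α} {e f : α} (he : e ∉ I) (hf : f ∈ I) :
    (insert e (I.erase f)).card = I.card := by
  rw [Finset.card_insert_of_notMem (fun h => he (Finset.mem_of_mem_erase h)),
    Finset.card_erase_of_mem hf]
  have : 0 < I.card := Finset.card_pos.mpr ⟨f, hf⟩
  omega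

theorem mem_exch {I : Finset α} {e f x : α} :
    x ∈ insert e (I.erase f) ↔ x = e ∨ (x ≠ f ∧ x ∈ I) := by
  simp [Finset.mem_insert, Finset.mem_erase]

theorem near_refl (I : Finset α) : Near I I := by simp [Near]

theorem near_symm {I J : Finset α} (h : Near I J) : Near J I := ⟨h.2, h.1⟩

theorem near_of_sub {I J : Finset α} (a b : α) (h1 : ∀ x ∈ I, x ∉ J → x = a)
    (h2 : ∀ x ∈ J, x ∉ I → x = b) : Near I J := by
  refine ⟨?_, ?_⟩
  · refine Finset.card_le_one.mpr (fun x hx y hy => ?_)
    rw [Finset.mem_sdiff] at hx hy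
    rw [h1 x hx.1 hx.2, h1 y hy.1 hy.2]
  · refine Finset.card_le_one.mpr (fun x hx y hy => ?_)
    rw [Finset.mem_sdiff] at hx hy
    rw [h2 x hx.1 hx.2, h2 y hy.1 hy.2]

theorem near_exch (I : Finset α) (e f : α) : Near I (insert e (I.erase f)) := by
  refine near_of_sub f e (fun x hx hn => ?_) (fun x hx hn => ?_)
  · by_contra hne
    exact hn (mem_exch.mpr (Or.inr ⟨hne, hx⟩))
  · rcases mem_exch.mp hx with h | h
    · exact h
    · exact absurd h.2 hn

/-- Two sets without one element each. -/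
theorem near_erase (Q : Finset α) (x y : α) : Near (Q.erase x) (Q.erase y) := by
  refine near_of_sub y x (fun u hu hn => ?_) (fun u hu hn => ?_)
  · by_contra hne
    exact hn (Finset.mem_erase.mpr ⟨hne, Finset.mem_of_mem_erase hu⟩)
  · by_contra hne
    exact hn (Finset.mem_erase.mpr ⟨hne, Finset.mem_of_mem_erase hu⟩)

/-- The shape of a near pair of the same size. -/
theorem near_cases {I J : Finset α} (hc : I.card = J.card) (h : Near I J) :
    I = J ∨ ∃ x y, x ∈ I ∧ x ∉ J ∧ y ∈ J ∧ y ∉ I ∧ J = insert y (I.erase x) ∧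
      I = insert x (J.erase y) := by
  by_cases hIJ : I = J
  · exact Or.inl hIJ
  · right
    have h1 : (I \ J).Nonempty := by
      rw [Finset.nonempty_iff_ne_empty]
      intro h0
      have hs : I ⊆ J := Finset.sdiff_eq_empty_iff_subset.mp h0
      exact hIJ (Finset.eq_of_subset_of_card_le hs (le_of_eq hc.symm))
    have h2 : (J \ I).Nonempty := by
      rw [Finset.nonempty_iff_ne_empty]
      intro h0
      have hs : J ⊆ I := Finset.sdiff_eq_empty_iff_subset.mp h0
      exact hIJ (Finset.eq_of_subset_of_card_le hs (le_of_eq hc)).symm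
    obtain ⟨x, hx⟩ := h1
    obtain ⟨y, hy⟩ := h2
    have ux := Finset.card_le_one.mp h.1
    have uy := Finset.card_le_one.mp h.2
    rw [Finset.mem_sdiff] at hx hy
    refine ⟨x, y, hx.1, hx.2, hy.1, hy.2, ?_, ?_⟩
    · ext u
      rw [mem_exch]
      constructor
      · intro hu
        by_cases hI : u ∈ I
        · right
          exact ⟨fun hc => hx.2 (hc ▸ hu), hI⟩
        · left
          exact uy u (Finset.mem_sdiff.mpr ⟨hu, hI⟩) y (Finset.mem_sdiff.mpr hy)
      · rintro (rfl | ⟨hne, hI⟩)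
        · exact hy.1
        · by_contra hJ
          exact hne (ux u (Finset.mem_sdiff.mpr ⟨hI, hJ⟩) x (Finset.mem_sdiff.mpr hx))
    · ext u
      rw [mem_exch]
      constructor
      · intro hu
        by_cases hJ : u ∈ J
        · right
          exact ⟨fun hc => hy.2 (hc ▸ hu), hJ⟩
        · left
          exact ux u (Finset.mem_sdiff.mpr ⟨hu, hJ⟩) x (Finset.mem_sdiff.mpr hx)
      · rintro (rfl | ⟨hne, hJ⟩)
        · exact hx.1
        · by_contra hI
          exact hne (uy u (Finset.mem_sdiff.mpr ⟨hJ, hI⟩) y (Finset.mem_sdiff.mpr hy))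

/-! ### Augmentation -/

/-- Augment `I` by `J` up to the size of `J`. -/
theorem aug_to (M : Mat α) {I J : Finset α} (hI : M.Ind I) (hJ : M.Ind J) (h : I.card ≤ J.card) :
    ∃ K, K ⊆ J ∧ Disjoint K I ∧ M.Ind (I ∪ K) ∧ (I ∪ K).card = J.card := by
  obtain ⟨d, hd⟩ := Nat.exists_eq_add_of_le h
  clear h
  induction d generalizing I with
  | zero =>
    refine ⟨∅, Finset.empty_subset _, Finset.disjoint_empty_left _, ?_, ?_⟩
    · rw [Finset.union_empty]; exact hI
    · rw [Finset.union_empty]; omega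
  | succ d ih =>
    obtain ⟨e, heJ, heI, hi⟩ := M.aug hI hJ (by omega)
    have hc : (insert e I).card = I.card + 1 := Finset.card_insert_of_notMem heI
    obtain ⟨K, hK1, hK2, hK3, hK4⟩ := ih hi (by omega)
    refine ⟨insert e K, ?_, ?_, ?_, ?_⟩
    · intro u hu
      rcases Finset.mem_insert.mp hu with rfl | hu
      · exact heJ
      · exact hK1 hu
    · rw [Finset.disjoint_left]
      intro u hu hI'
      rcases Finset.mem_insert.mp hu with rfl | hu
      · exact heI hI'
      · exact Finset.disjoint_left.mp hK2 hu (Finset.mem_insert_of_mem hI')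
    · have : I ∪ insert e K = insert e I ∪ K := by
        ext u; simp only [Finset.mem_union, Finset.mem_insert]; tauto
      rw [this]; exact hK3
    · have : I ∪ insert e K = insert e I ∪ K := by
        ext u; simp only [Finset.mem_union, Finset.mem_insert]; tauto
      rw [this]; exact hK4

/-- Augment a subset-like set `X` (one element `z` outside the independent `I`, the rest inside)
up to the size of `I`: the result is `I` plus `z` minus one element outside `X`, or `I` plus `z`
is too big. -/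
theorem aug_one (M : Mat α) {I X : Finset α} {z : α} (hI : M.Ind I) (hX : X ⊆ I) (hz : z ∉ I)
    (hi : M.Ind (insert z X)) (hne : X ≠ I) : ∃ f ∈ I, f ∉ X ∧ M.Ind (insert z (I.erase f)) := by
  have hc : X.card < I.card := by
    refine Finset.card_lt_card ((Finset.ssubset_iff_subset_ne).mpr ⟨hX, hne⟩)
  have hzX : z ∉ X := fun h => hz (hX h)
  have h1 : (insert z X).card = X.card + 1 := Finset.card_insert_of_notMem hzX
  obtain ⟨K, hK1, hK2, hK3, hK4⟩ := aug_to M hi hI (by omega)
  have hsub : insert z X ∪ K ⊆ insert z I := by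
    intro u hu
    rcases Finset.mem_union.mp hu with hu | hu
    · rcases Finset.mem_insert.mp hu with rfl | hu
      · exact Finset.mem_insert_self _ _
      · exact Finset.mem_insert_of_mem (hX hu)
    · exact Finset.mem_insert_of_mem (hK1 hu)
  have h2 : (insert z I).card = I.card + 1 := Finset.card_insert_of_notMem hz
  have h3 : ∃ f, f ∈ insert z I ∧ f ∉ insert z X ∪ K := by
    by_contra hcon
    push Not at hcon
    have := Finset.card_le_card (fun u hu => hcon u hu : insert z I ⊆ insert z X ∪ K)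
    omega
  obtain ⟨f, hf1, hf2⟩ := h3
  have hfz : f ≠ z := by
    intro h
    exact hf2 (Finset.mem_union_left _ (h ▸ Finset.mem_insert_self _ _))
  have hfI : f ∈ I := by
    rcases Finset.mem_insert.mp hf1 with h | h
    · exact absurd h hfz
    · exact h
  refine ⟨f, hfI, fun h => hf2 (Finset.mem_union_left _ (Finset.mem_insert_of_mem h)), ?_⟩
  have heq : insert z X ∪ K = insert z (I.erase f) := by
    refine Finset.eq_of_subset_of_card_le ?_ ?_
    · intro u hu
      rcases Finset.mem_insert.mp (hsub hu) with h | h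
      · exact h ▸ Finset.mem_insert_self _ _
      · refine Finset.mem_insert_of_mem (Finset.mem_erase.mpr ⟨?_, h⟩)
        intro huf
        exact hf2 (huf ▸ hu)
    · rw [hK4, card_exch hz hfI]
  rw [← heq]; exact hK3

/-! ### Exchanging the two matroids -/

theorem ci_swap {M N : Mat α} {k : ℕ} {I : Finset α} (h : CI M N k I) : CI N M k I :=
  ⟨h.2.1, h.1, h.2.2⟩

theorem ci_comm {M N : Mat α} {k : ℕ} {I : Finset α} : CI M N k I ↔ CI N M k I :=
  ⟨ci_swap, ci_swap⟩

theorem setup_swap {M N : Mat α} {n : ℕ} {S : Finset α} (h : Setup M N n S) : Setup N M n S :=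
  ⟨h.rN, h.rM, ci_swap h.cS⟩

theorem clo_swap {M N : Mat α} {n : ℕ} {φ : Finset α → Finset α → ℤ} (h : Clo M N n φ) :
    Clo N M n φ :=
  fun A B C D hA hB hC hD => h A B C D (ci_swap hA) (ci_swap hB) (ci_swap hC) (ci_swap hD)

theorem pot_swap {M N : Mat α} {n : ℕ} {S : Finset α} {φ : Finset α → Finset α → ℤ} {k : ℕ}
    {θ : Finset α → ℤ} (h : Pot M N n S φ k θ) : Pot N M n S φ k θ :=
  fun I J hI hJ => h I J (ci_swap hI) (ci_swap hJ)

theorem up_swap {M N : Mat α} {S I : Finset α} {e f : α} (h : Up M N S I e f) :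
    Up N M S I e f :=
  ⟨h.1, h.2.1, h.2.2.1, h.2.2.2.1, h.2.2.2.2.2, h.2.2.2.2.1⟩

theorem vert_swap {M N : Mat α} {n : ℕ} {S : Finset α} {φ : Finset α → Finset α → ℤ} {k : ℕ}
    {θ : Finset α → ℤ} (h : Vert M N n S φ k θ) : Vert N M n S φ k θ :=
  ⟨pot_swap h.1, fun I e f hI hk hu => h.2 I e f (ci_swap hI) hk (up_swap hu)⟩

theorem four_swap {M N : Mat α} {n : ℕ} {S I A B J : Finset α} (h : Four M N n S I A B J) :
    Four N M n S I A B J :=
  ⟨ci_swap h.1, h.2⟩

theorem alw_symm {S I J : Finset α} (h : Alw S I J) : Alw S J I := by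
  rcases h with ⟨x, hx, hS⟩ | h
  · exact Or.inl ⟨x, hx.symm, hS⟩
  · exact Or.inr ⟨h.2, h.1⟩

theorem four_symm {M N : Mat α} {n : ℕ} {S I A B J : Finset α} (h : Four M N n S I A B J) :
    Four M N n S I B A J :=
  ⟨h.1, near_symm h.2.2.1, near_symm h.2.1, h.2.2.2.1, alw_symm h.2.2.2.2.2,
    alw_symm h.2.2.2.2.1⟩

/-! ### Upward exchanges -/

theorem up_ci {M N : Mat α} {n : ℕ} {S I : Finset α} {e f : α} (hI : CI M N n I)
    (h : Up M N S I e f) : CI M N n (insert e (I.erase f)) :=
  ⟨h.2.2.2.2.1, h.2.2.2.2.2, by rw [card_exch h.2.1 h.2.2.1]; exact hI.2.2⟩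

theorem exch_level {S I : Finset α} {e f : α} (he : e ∈ S) (heI : e ∉ I)
    (hfS : f ∉ S) : ((insert e (I.erase f)) ∩ S).card = (I ∩ S).card + 1 := by
  have : (insert e (I.erase f)) ∩ S = insert e (I ∩ S) := by
    ext u
    simp only [Finset.mem_inter, Finset.mem_insert, Finset.mem_erase]
    constructor
    · rintro ⟨rfl | ⟨_, h2⟩, h3⟩
      · exact Or.inl rfl
      · exact Or.inr ⟨h2, h3⟩
    · rintro (rfl | ⟨h2, h3⟩)
      · exact ⟨Or.inl rfl, he⟩
      · exact ⟨Or.inr ⟨fun h => hfS (h ▸ h3), h2⟩, h3⟩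
  rw [this, Finset.card_insert_of_notMem (fun h => heI (Finset.mem_inter.mp h).1)]

theorem up_level {M N : Mat α} {S I : Finset α} {e f : α} (h : Up M N S I e f) :
    ((insert e (I.erase f)) ∩ S).card = (I ∩ S).card + 1 :=
  exch_level h.1 h.2.1 h.2.2.2.1

/-! ### Closed cochains -/

theorem clo_self {M N : Mat α} {n : ℕ} {φ : Finset α → Finset α → ℤ} (h : Clo M N n φ)
    {A : Finset α} (hA : CI M N n A) : φ A A = 0 := by
  have := h A A A A hA hA hA hA (near_refl A) (near_refl A) (near_refl A) (near_refl A)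
  omega

theorem clo_anti {M N : Mat α} {n : ℕ} {φ : Finset α → Finset α → ℤ} (h : Clo M N n φ)
    {A B : Finset α} (hA : CI M N n A) (hB : CI M N n B) (hn : Near A B) :
    φ B A = - φ A B := by
  have := h A B A B hA hB hA hB hn (near_symm hn) hn (near_symm hn)
  omega

theorem clo_tri {M N : Mat α} {n : ℕ} {φ : Finset α → Finset α → ℤ} (h : Clo M N n φ)
    {A B C : Finset α} (hA : CI M N n A) (hB : CI M N n B) (hC : CI M N n C)
    (h1 : Near A B) (h2 : Near B C) (h3 : Near A C) : φ A B + φ B C = φ A C := by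
  have e1 := h A B C C hA hB hC hC h1 h2 (near_refl C) (near_symm h3)
  have e2 := clo_self h hC
  have e3 := clo_anti h hA hC h3
  omega

theorem clo_sq {M N : Mat α} {n : ℕ} {φ : Finset α → Finset α → ℤ} (h : Clo M N n φ)
    {A B C D : Finset α} (hA : CI M N n A) (hB : CI M N n B) (hC : CI M N n C)
    (hD : CI M N n D) (h1 : Near A B) (h2 : Near B C) (h3 : Near A D) (h4 : Near D C) :
    φ A B + φ B C = φ A D + φ D C := by
  have e1 := h A B C D hA hB hC hD h1 h2 (near_symm h4) (near_symm h3)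
  have e3 := clo_anti h hA hD h3
  have e4 := clo_anti h hD hC h4
  omega

/-! ### Truncation and restriction -/

/-- Truncation. -/
def trunc (M : Mat α) (r : ℕ) : Mat α where
  Ind I := M.Ind I ∧ I.card ≤ r
  emp := ⟨M.emp, by simp⟩
  sub := fun I J h hs => ⟨M.sub h.1 hs, (Finset.card_le_card hs).trans h.2⟩
  aug := by
    intro I J hI hJ hc
    obtain ⟨e, he, heI, hi⟩ := M.aug hI.1 hJ.1 hc
    refine ⟨e, he, heI, hi, ?_⟩
    rw [Finset.card_insert_of_notMem heI]
    have := hJ.2
    omega

theorem trunc_rk (M : Mat α) (r : ℕ) : (trunc M r).Rk r := fun _ h => h.2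

theorem trunc_ind {M : Mat α} {r : ℕ} {I : Finset α} :
    (trunc M r).Ind I ↔ M.Ind I ∧ I.card ≤ r := Iff.rfl

/-- Restriction to `E`. -/
def restr (M : Mat α) (E : Finset α) : Mat α where
  Ind I := M.Ind I ∧ I ⊆ E
  emp := ⟨M.emp, by simp⟩
  sub := fun I J h hs => ⟨M.sub h.1 hs, hs.trans h.2⟩
  aug := by
    intro I J hI hJ hc
    obtain ⟨e, he, heI, hi⟩ := M.aug hI.1 hJ.1 hc
    refine ⟨e, he, heI, hi, ?_⟩
    intro u hu
    rcases Finset.mem_insert.mp hu with rfl | hu
    · exact hJ.2 he
    · exact hI.2 hu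

theorem restr_ind {M : Mat α} {E I : Finset α} : (restr M E).Ind I ↔ M.Ind I ∧ I ⊆ E := Iff.rfl

/-- Contraction of an independent set `W`. -/
def contr (M : Mat α) (W : Finset α) (hW : M.Ind W) : Mat α where
  Ind I := Disjoint I W ∧ M.Ind (I ∪ W)
  emp := ⟨Finset.disjoint_empty_left _, by rw [Finset.empty_union]; exact hW⟩
  sub := fun I J h hs => ⟨Finset.disjoint_of_subset_left hs h.1,
    M.sub h.2 (Finset.union_subset_union_left hs)⟩
  aug := by
    intro I J hI hJ hc
    obtain ⟨e, he, heI, hi⟩ := M.aug hI.2 hJ.2 (by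
      rw [Finset.card_union_of_disjoint hI.1, Finset.card_union_of_disjoint hJ.1]; omega)
    have heW : e ∉ W := fun h => heI (Finset.mem_union_right _ h)
    have heJ : e ∈ J := by
      rcases Finset.mem_union.mp he with h | h
      · exact h
      · exact absurd h heW
    refine ⟨e, heJ, fun h => heI (Finset.mem_union_left _ h), ?_, ?_⟩
    · rw [Finset.disjoint_insert_left]
      exact ⟨heW, hI.1⟩
    · rw [Finset.insert_union]; exact hi

theorem contr_ind {M : Mat α} {W : Finset α} {hW : M.Ind W} {I : Finset α} :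
    (contr M W hW).Ind I ↔ Disjoint I W ∧ M.Ind (I ∪ W) := Iff.rfl

end Pool.Agent.R3M.Kit
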