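import Mathlib

/-!
# Three distinct common independent sets in two matroids (R3M): definitions

A finite-set matroid is a hereditary family of finite sets with the augmentation axiom.
-/

set_option autoImplicit false

namespace Pool.Agent.R3M

/-- Matroid given by its finite independent sets. -/
structure Mat (α : Type) [DecidableEq α] where
  Ind : Finset α → Prop
  emp : Ind ∅
  sub : ∀ ⦃I J : Finset α⦄, Ind J → I ⊆ J → Ind I
  aug : ∀ ⦃I J : Finset α⦄, Ind I → Ind J → I.card < J.card → ∃ e ∈ J, e ∉ I ∧ Ind (insert e I)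

variable {α : Type} [DecidableEq α]

/-- All independent sets have at most `r` elements. -/
def Mat.Rk (M : Mat α) (r : ℕ) : Prop := ∀ I : Finset α, M.Ind I → I.card ≤ r

/-- Common independent set with `k` elements. -/
def CI (M N : Mat α) (k : ℕ) (I : Finset α) : Prop := M.Ind I ∧ N.Ind I ∧ I.card = k

/-- Standing hypothesis: both ranks are `n + 1`, and `S` is a common base. -/
structure Setup (M N : Mat α) (n : ℕ) (S : Finset α) : Prop where
  rM : M.Rk (n + 1)
  rN : N.Rk (n + 1)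
  cS : CI M N (n + 1) S

/-- `a` can replace `r` in `P`. -/
def Arc (M : Mat α) (P : Finset α) (r a : α) : Prop := M.Ind (insert a (P.erase r))

/-- Equal or differ by one exchange (for sets of the same size). -/
def Near (I J : Finset α) : Prop := (I \ J).card ≤ 1 ∧ (J \ I).card ≤ 1

/-- Closed cochain on the states (common independent sets with `n` elements). -/
def Clo (M N : Mat α) (n : ℕ) (φ : Finset α → Finset α → ℤ) : Prop :=
  ∀ A B C D : Finset α, CI M N n A → CI M N n B → CI M N n C → CI M N n D →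
    Near A B → Near B C → Near C D → Near D A → φ A B + φ B C + φ C D + φ D A = 0

/-- Allowed edge: some changed element is outside `S`, or both sets are inside `S`. -/
def Alw (S I J : Finset α) : Prop :=
  (∃ x, ((x ∈ I ∧ x ∉ J) ∨ (x ∈ J ∧ x ∉ I)) ∧ x ∉ S) ∨ (I ⊆ S ∧ J ⊆ S)

/-- `θ` is a potential of `φ` on the states with at least `k` elements of `S`. -/
def Pot (M N : Mat α) (n : ℕ) (S : Finset α) (φ : Finset α → Finset α → ℤ) (k : ℕ)
    (θ : Finset α → ℤ) : Prop :=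
  ∀ I J : Finset α, CI M N n I → CI M N n J → Near I J → k ≤ (I ∩ S).card → k ≤ (J ∩ S).card →
    Alw S I J → φ I J = θ J - θ I

/-- `S`-increasing exchange: `e ∈ S` comes in, `f ∉ S` goes out. -/
def Up (M N : Mat α) (S I : Finset α) (e f : α) : Prop :=
  e ∈ S ∧ e ∉ I ∧ f ∈ I ∧ f ∉ S ∧ M.Ind (insert e (I.erase f)) ∧ N.Ind (insert e (I.erase f))

/-- `θ` is a potential above level `k`, and also for the upward edges which start at level `k`. -/
def Vert (M N : Mat α) (n : ℕ) (S : Finset α) (φ : Finset α → Finset α → ℤ) (k : ℕ)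
    (θ : Finset α → ℤ) : Prop :=
  Pot M N n S φ (k + 1) θ ∧
  ∀ (I : Finset α) (e f : α), CI M N n I → (I ∩ S).card = k → Up M N S I e f →
    φ I (insert e (I.erase f)) = θ (insert e (I.erase f)) - θ I

/-- Consistency of the edge between `P - x` and `P - y`. -/
def Cons (φ : Finset α → Finset α → ℤ) (θ : Finset α → ℤ) (P : Finset α) (x y : α) : Prop :=
  φ (P.erase x) (P.erase y) = θ (P.erase y) - θ (P.erase x)

/-- One step in the exchange digraph of the common base `P`. -/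
def Stp (M N : Mat α) (P : Finset α) (x y : α) : Prop :=
  x ∈ P ∧ y ∈ P ∧ ∃ z, z ∉ P ∧ Arc M P x z ∧ Arc N P y z

/-- Irreducible pair: the exchange digraph of every common base is strongly connected. -/
def Irr (M N : Mat α) (n : ℕ) : Prop :=
  ∀ P : Finset α, CI M N (n + 1) P → ∀ x ∈ P, ∀ y ∈ P, Relation.ReflTransGen (Stp M N P) x y

/-- Chordless cycle of `P` against `S`: `h i ∈ P \ S`, `e i ∈ S \ P` for `i < m`, `h m = h 0`,
`M`-arcs from `h i` to `e i`, `N`-arcs from `h (i+1)` to `e i`, and no other arcs. -/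
structure Cyc (M N : Mat α) (P S : Finset α) (m : ℕ) (h e : ℕ → α) : Prop where
  two : 2 ≤ m
  hP : ∀ i, i < m → h i ∈ P
  hS : ∀ i, i < m → h i ∉ S
  eS : ∀ i, i < m → e i ∈ S
  eP : ∀ i, i < m → e i ∉ P
  wrap : h m = h 0
  hinj : ∀ i j, i < m → j < m → h i = h j → i = j
  einj : ∀ i j, i < m → j < m → e i = e j → i = j
  aM : ∀ i, i < m → Arc M P (h i) (e i)
  aN : ∀ i, i < m → Arc N P (h (i + 1)) (e i)
  cM : ∀ i j, i < m → j < m → i ≠ j → ¬ Arc M P (h i) (e j)
  cN : ∀ i j, i < m → j < m → i ≠ j → ¬ Arc N P (h (i + 1)) (e j)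

/-- The `M`-side conditions of a configuration: a cycle `(g, d)` of length `a` whose `M`-partners
are `d i ↔ g (i+1)`, a path `f, z` of length `l` with `M`-partners `z j ↔ f j`, a cycle `(h, e)`
of length `b` with `M`-partners `e i ↔ h i`; and the missing arcs. -/
structure Half (M : Mat α) (P : Finset α) (a l b : ℕ) (g d f z h e : ℕ → α) : Prop where
  a1 : ∀ i, i < a → Arc M P (g (i + 1)) (d i)
  a2 : ∀ j, j < l → Arc M P (f j) (z j)
  a3 : ∀ i, i < b → Arc M P (h i) (e i)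
  c1 : ∀ i j, i < a → j < a → i ≠ j → ¬ Arc M P (g (i + 1)) (d j)
  c2 : ∀ i j, i ≤ a → 1 ≤ j → j < l → ¬ Arc M P (g i) (z j)
  c3 : ∀ i j, i ≤ a → j < b → ¬ Arc M P (g i) (e j)
  c4 : ∀ i j, i < j → j < l → ¬ Arc M P (f i) (z j)
  c5 : ∀ i j, i + 1 < l → j < b → ¬ Arc M P (f i) (e j)
  c6 : z (l - 1) = e (b - 1) ∨ ∀ j, j < b → ¬ Arc M P (f (l - 1)) (e j)
  c7 : ∀ i j, i < b → j < b → i ≠ j → ¬ Arc M P (h i) (e j)

/-- A full configuration at the common base `P`: two chordless cycles of `P` against `S`,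
`(g, d)` (length `a`, roles of `M` and `N` exchanged) and `(h, e)` (length `b`), joined by a path
`g 0 = f 0, z 0, f 1, ..., z (l-1), f l = h 0` without shortcuts. -/
structure Conf (M N : Mat α) (P S : Finset α) (a l b : ℕ) (g d f z h e : ℕ → α) : Prop where
  c1 : Cyc N M P S a g d
  c2 : Cyc M N P S b h e
  lpos : 1 ≤ l
  f0 : f 0 = g 0
  fl : f l = h 0
  fP : ∀ j, j ≤ l → f j ∈ P
  zP : ∀ j, j < l → z j ∉ P
  gh : ∀ i j, i ≤ a → j ≤ b → g i ≠ h j
  fg : ∀ i j, i ≤ a → 1 ≤ j → j ≤ l → f j ≠ g i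
  fh : ∀ i j, i ≤ b → j < l → f j ≠ h i
  finj : ∀ i j, i ≤ l → j ≤ l → f i = f j → i = j
  zinj : ∀ i j, i < l → j < l → z i = z j → i = j
  de : ∀ i j, i < a → j < b → d i ≠ e j
  zd : ∀ i j, i < a → j < l → z j = d i → j = 0 ∧ i = a - 1
  ze : ∀ i j, i < b → j < l → z j = e i → j = l - 1 ∧ i = b - 1
  hM : Half M P a l b g d f z h e
  hN : Half N P b l a h e (fun j => f (l - j)) (fun j => z (l - 1 - j)) g d

/-- The states of a configuration. `i ≤ j ≤ l` is the segment of the path which is switched on;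
`X, Y` are the indices of the elements of the two cycles which are inside, `RX, RY` the indices
of the elements of `P` in the two cycles which are removed. -/
def VS (P : Finset α) (g d f z h e : ℕ → α) (i j : ℕ) (X RX Y RY : Finset ℕ) : Finset α :=
  (P \ (RX.image g ∪ (Finset.Icc i j).image f ∪ RY.image h)) ∪
    (X.image d ∪ (Finset.Ico i j).image z ∪ Y.image e)

/-- `J` is a state two levels above `I`, near to `A` and to `B`. -/
def Four (M N : Mat α) (n : ℕ) (S I A B J : Finset α) : Prop :=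
  CI M N n J ∧ Near A J ∧ Near J B ∧ (J ∩ S).card = (I ∩ S).card + 2 ∧
    Alw S A J ∧ Alw S J B

/-- Separation of two cycles: no arcs between them. -/
def Sep (M N : Mat α) (P : Finset α) (a b : ℕ) (g d h e : ℕ → α) : Prop :=
  (∀ i j, i ≤ a → j ≤ b → g i ≠ h j) ∧
  (∀ i j, i ≤ a → j < b → ¬ Arc M P (g i) (e j) ∧ ¬ Arc N P (g i) (e j)) ∧
  (∀ i j, i < a → j ≤ b → ¬ Arc M P (h j) (d i) ∧ ¬ Arc N P (h j) (d i))

/-- A path of length `l` from the first to the second cycle. -/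
structure Pth (M N : Mat α) (P : Finset α) (a l b : ℕ) (g f z h : ℕ → α) : Prop where
  f0 : ∃ i, i < a ∧ f 0 = g i
  fl : ∃ i, i < b ∧ f l = h i
  fP : ∀ j, j ≤ l → f j ∈ P
  zP : ∀ j, j < l → z j ∉ P
  aM : ∀ j, j < l → Arc M P (f j) (z j)
  aN : ∀ j, j < l → Arc N P (f (j + 1)) (z j)

/-- A path from the first to the second cycle, without shortcuts, before rotation. -/
structure Pre (M N : Mat α) (P : Finset α) (a l b : ℕ) (g d f z h e : ℕ → α)
    : Prop where
  lpos : 1 ≤ l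
  f0 : ∃ i, i < a ∧ f 0 = g i
  fl : ∃ i, i < b ∧ f l = h i
  fP : ∀ j, j ≤ l → f j ∈ P
  zP : ∀ j, j < l → z j ∉ P
  aM : ∀ j, j < l → Arc M P (f j) (z j)
  aN : ∀ j, j < l → Arc N P (f (j + 1)) (z j)
  fg : ∀ i j, i ≤ a → 1 ≤ j → j ≤ l → f j ≠ g i
  fh : ∀ i j, i ≤ b → j < l → f j ≠ h i
  m1 : ∀ i j, i ≤ a → 1 ≤ j → j < l → ¬ Arc M P (g i) (z j)
  m2 : ∀ i j, i < j → j < l → ¬ Arc M P (f i) (z j)
  m3 : ∀ i j, i + 1 < l → j < b → ¬ Arc M P (f i) (e j)
  n1 : ∀ i j, i ≤ b → j + 1 < l → ¬ Arc N P (h i) (z j)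
  n2 : ∀ i j, j + 1 < i → i ≤ l → ¬ Arc N P (f i) (z j)
  n3 : ∀ i j, 2 ≤ i → i ≤ l → j < a → ¬ Arc N P (f i) (d j)
  q1 : (∃ j, j < b ∧ z (l - 1) = e j ∧ f l = h (j + 1)) ∨
    ∀ j, j < b → ¬ Arc M P (f (l - 1)) (e j)
  q2 : (∃ j, j < a ∧ z 0 = d j ∧ f 0 = g (j + 1)) ∨
    ∀ j, j < a → ¬ Arc N P (f 1) (d j)

/-- Modes of the first cycle for a segment starting at `i`. -/
def Mo1 (a i : ℕ) (X RX : Finset ℕ) : Prop :=
  (i = 0 ∧ ∃ t, t < a ∧ X = Finset.range t ∧ RX = Finset.range (t + 1)) ∨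
  (1 ≤ i ∧ ((X = ∅ ∧ RX = ∅) ∨ (X = Finset.range a ∧ RX = Finset.range a)))

/-- Modes of the second cycle for a segment ending at `j`. -/
def Mo2 (b l j : ℕ) (Y RY : Finset ℕ) : Prop :=
  (j = l ∧ ∃ u, u < b ∧ Y = Finset.range u ∧ RY = Finset.range (u + 1)) ∨
  (j < l ∧ ((Y = ∅ ∧ RY = ∅) ∨ (Y = Finset.range b ∧ RY = Finset.range b)))

/-- Index sets of the first cycle at `i`, `σ = false`: not exchanged, `σ = true`: exchanged. -/
def X1 (a : ℕ) (σ : Bool) (i : ℕ) : Finset ℕ :=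
  if σ then (if i = 0 then Finset.range (a - 1) else Finset.range a) else ∅

def RX1 (a : ℕ) (σ : Bool) (i : ℕ) : Finset ℕ :=
  if σ then Finset.range a else (if i = 0 then Finset.range 1 else ∅)

def Y2 (b l : ℕ) (τ : Bool) (j : ℕ) : Finset ℕ :=
  if τ then (if j = l then Finset.range (b - 1) else Finset.range b) else ∅

def RY2 (b l : ℕ) (τ : Bool) (j : ℕ) : Finset ℕ :=
  if τ then Finset.range b else (if j = l then Finset.range 1 else ∅)

section
variable (P : Finset α) (a l b : ℕ) (g d f z h e : ℕ → α)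

/-- Triangle states. -/
def TT (σ τ : Bool) (i j : ℕ) : Finset α :=
  VS P g d f z h e i j (X1 a σ i) (RX1 a σ i) (Y2 b l τ j) (RY2 b l τ j)

/-- First strip: the first cycle at stage `t`, the segment `[0, j]`. -/
def CC (τ : Bool) (t j : ℕ) : Finset α :=
  VS P g d f z h e 0 j (Finset.range t) (Finset.range (t + 1)) (Y2 b l τ j) (RY2 b l τ j)

/-- Second strip: the second cycle at stage `u`, the segment `[i, l]`. -/
def DD (σ : Bool) (i u : ℕ) : Finset α :=
  VS P g d f z h e i l (X1 a σ i) (RX1 a σ i) (Finset.range u) (Finset.range (u + 1))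

/-- The grid: both cycles, the whole path. -/
def GG (t u : ℕ) : Finset α :=
  VS P g d f z h e 0 l (Finset.range t) (Finset.range (t + 1)) (Finset.range u)
    (Finset.range (u + 1))

end

/-- Crossing number of the ray `{(x, c + 1/2) : x > b}`. -/
def cr (b c : ℕ) (p q : ℕ × ℕ) : ℤ :=
  if p.2 = c + 1 ∧ q.2 = c ∧ b < q.1 then 1
  else if p.2 = c ∧ q.2 = c + 1 ∧ b < p.1 then -1 else 0

/-- Hexagonal neighbours or equal. -/
def Hex (p q : ℕ × ℕ) : Prop :=
  p.1 ≤ q.1 + 1 ∧ q.1 ≤ p.1 + 1 ∧ p.2 ≤ q.2 + 1 ∧ q.2 ≤ p.2 + 1 ∧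
    p.1 + p.2 ≤ q.1 + q.2 + 1 ∧ q.1 + q.2 ≤ p.1 + p.2 + 1

/-- One half of a splitting. -/
structure Part (MA NA : Mat α) (p : ℕ) (A S T U : Finset α) : Prop where
  rM : MA.Rk p
  rN : NA.Rk p
  gM : ∀ I, MA.Ind I → I ⊆ A
  gN : ∀ I, NA.Ind I → I ⊆ A
  cS : CI MA NA p (S ∩ A)
  cT : CI MA NA p (T ∩ A)
  cU : CI MA NA p (U ∩ A)

end Pool.Agent.R3M
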