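import Pool.Agent.R3M.Defs

/-!
# R3M: statements of the modules

`M N : Mat α` throughout; `n + 1` is the rank, states are common independent sets of size `n`.
-/

set_option autoImplicit false

namespace Pool.Agent.R3M

/-! ### One matroid -/

/-- LSP. Swapping inside the span keeps `g` independent.
Proof: augment `I' = I - f + e` by `I + g`: the new element is `g` (done) or `f`, and
`I' + f = I + e` is dependent. -/
def LspStmt : Prop :=
  ∀ (α : Type) [DecidableEq α] (M : Mat α) (I : Finset α) (e f g : α),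
    e ∉ I → f ∈ I → g ∉ I → ¬ M.Ind (insert e I) → M.Ind (insert e (I.erase f)) →
    M.Ind (insert g I) → M.Ind (insert g (insert e (I.erase f)))

/-- LCI. The circuit of `I + e` is not inside the independent set `S`.
Proof: augment `(I ∩ S) + e` (subset of `S`) by elements of `I` up to size `|I|`; the result is
`I + e - f` with `f ∈ I`, `f ∉ S`. -/
def LciStmt : Prop :=
  ∀ (α : Type) [DecidableEq α] (M : Mat α) (I S : Finset α) (e : α),
    M.Ind I → M.Ind S → e ∈ S → e ∉ I → ¬ M.Ind (insert e I) →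
    ∃ f ∈ I, f ∉ S ∧ M.Ind (insert e (I.erase f))

/-- LCL. The closure does not change under a swap.
Proof: otherwise augment `I` by `I - f + e + e1`. -/
def LclStmt : Prop :=
  ∀ (α : Type) [DecidableEq α] (M : Mat α) (I : Finset α) (e f e1 : α),
    M.Ind I → e ∉ I → e1 ∉ I → e ≠ e1 → f ∈ I → ¬ M.Ind (insert e I) → ¬ M.Ind (insert e1 I) →
    ¬ M.Ind (insert e1 (insert e (I.erase f)))

/-- LTW. If `I - f + e - f' + e1` is independent (`f ≠ f'`), then `I - f + e1` or `I - f' + e1`
is. Proof: suppose both are dependent; augment `I - f - f' + e1` (subset of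
`I - f + e - f' + e1`) ... ; or: let `X = I.erase f |>.erase f' |> insert e1`, independent with
`|I| - 1` elements, augment it by `I`: the new element is `f` or `f'`, and the result is
`I - f' + e1` or `I - f + e1`. -/
def LtwStmt : Prop :=
  ∀ (α : Type) [DecidableEq α] (M : Mat α) (I : Finset α) (e f f' e1 : α),
    M.Ind I → e ∉ I → e1 ∉ I → e ≠ e1 → f ∈ I → f' ∈ I → f ≠ f' →
    M.Ind (insert e1 ((insert e (I.erase f)).erase f')) →
    M.Ind (insert e1 (I.erase f)) ∨ M.Ind (insert e1 (I.erase f'))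

/-- ARC. Arcs after one exchange at a base: if `r` is not in the circuit of `b`, then the circuit
of `b` does not change. Proof in both directions by augmenting `P - x - r + b`. -/
def ArcStmt : Prop :=
  ∀ (α : Type) [DecidableEq α] (M : Mat α) (P : Finset α) (r a x b : α),
    M.Rk P.card → M.Ind P → r ∈ P → a ∉ P → x ∈ P → b ∉ P → x ≠ r → b ≠ a →
    Arc M P r a → ¬ Arc M P r b →
    (Arc M P x b ↔ Arc M (insert a (P.erase r)) x b)

/-- TRI. Triangular exchange. `L` is a list of pairs `(a, r)`. Induction on `L` with `ArcStmt`. -/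
def TriStmt : Prop :=
  ∀ (α : Type) [DecidableEq α] (M : Mat α) (P : Finset α) (L : List (α × α)),
    M.Rk P.card → M.Ind P →
    (∀ p ∈ L, p.1 ∉ P) → (∀ p ∈ L, p.2 ∈ P) → (L.map Prod.fst).Nodup → (L.map Prod.snd).Nodup →
    (∀ p ∈ L, Arc M P p.2 p.1) → L.Pairwise (fun p q => ¬ Arc M P p.2 q.1) →
    M.Ind ((P \ (L.map Prod.snd).toFinset) ∪ (L.map Prod.fst).toFinset)

/-- UPE. Existence of an `S`-increasing exchange.
Proof: augment `I` by `S` in `M`: `e ∈ S`. If `I + e` is `N`-independent take any `f ∈ I \ S`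
(exists: `|I| = n`, `I ⊄ S`), otherwise `LciStmt` in `N`. -/
def UpeStmt : Prop :=
  ∀ (α : Type) [DecidableEq α] (M N : Mat α) (n : ℕ) (S I : Finset α),
    Setup M N n S → CI M N n I → ¬ I ⊆ S → ∃ e f, Up M N S I e f

/-! ### Local confluence: pairs of upward exchanges and the fourth vertex -/

/-- VRC. row exchange `e1`, column exchange `e2`. If `f1 ≠ f2`: `J = I + e1 + e2 - f1 - f2`
(`LspStmt` in both matroids). If `f1 = f2 = f`: `I - f + e1 + e2` is common independent
(`LspStmt`), remove a third element `f3 ∈ I \ S`, `f3 ≠ f`. -/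
def VrcStmt : Prop :=
  ∀ (α : Type) [DecidableEq α] (M N : Mat α) (n : ℕ) (S I : Finset α) (e1 f1 e2 f2 : α),
    Setup M N n S → CI M N n I → 2 ≤ (I \ S).card →
    Up M N S I e1 f1 → Up M N S I e2 f2 →
    M.Ind (insert e1 I) → ¬ N.Ind (insert e1 I) → ¬ M.Ind (insert e2 I) → N.Ind (insert e2 I) →
    ∃ x1 x2 J, Up M N S I e1 x1 ∧ Up M N S I e2 x2 ∧
      Four M N n S I (insert e1 (I.erase x1)) (insert e2 (I.erase x2)) J

/-- VRF. row exchange `e1`, free exchange `e3` (`I + e3` common independent). In `M`: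
`I + e1 + e3` is dependent (rank), `LciStmt` for `I + e3` and `e1` gives `f' ∈ I \ S` with
`I + e1 + e3 - f'` independent. In `N`: `I + e1 - f1 + e3` independent (`LspStmt`).
If `f' ≠ f1`: `J = I + e1 + e3 - f1 - f'`, otherwise `J = I + e1 + e3 - f1 - f''` for any other
`f'' ∈ I \ S`. -/
def VrfStmt : Prop :=
  ∀ (α : Type) [DecidableEq α] (M N : Mat α) (n : ℕ) (S I : Finset α) (e1 f1 e3 f3 : α),
    Setup M N n S → CI M N n I → 2 ≤ (I \ S).card →
    Up M N S I e1 f1 → Up M N S I e3 f3 →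
    M.Ind (insert e1 I) → ¬ N.Ind (insert e1 I) → M.Ind (insert e3 I) → N.Ind (insert e3 I) →
    ∃ x1 x3 J, Up M N S I e1 x1 ∧ Up M N S I e3 x3 ∧
      Four M N n S I (insert e1 (I.erase x1)) (insert e3 (I.erase x3)) J

/-- VFF. two free exchanges `e3 ≠ e4`. `LciStmt` in `M` gives `fM`, in `N` gives `fN`; if
`fM ≠ fN`: `J = I + e3 + e4 - fM - fN`, otherwise replace one of them by another element of
`I \ S`. -/
def VffStmt : Prop :=
  ∀ (α : Type) [DecidableEq α] (M N : Mat α) (n : ℕ) (S I : Finset α) (e3 f3 e4 f4 : α),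
    Setup M N n S → CI M N n I → 2 ≤ (I \ S).card → e3 ≠ e4 →
    Up M N S I e3 f3 → Up M N S I e4 f4 →
    M.Ind (insert e3 I) → N.Ind (insert e3 I) → M.Ind (insert e4 I) → N.Ind (insert e4 I) →
    ∃ x3 x4 J, Up M N S I e3 x3 ∧ Up M N S I e4 x4 ∧
      Four M N n S I (insert e3 (I.erase x3)) (insert e4 (I.erase x4)) J

/-- VBR. `e` dependent in both (`I + e` neither `M`- nor `N`-independent), row exchange `e1`.
`I' = I - f + e`; `I' + e1` is `M`-independent (`LspStmt`), `N`-dependent (`LclStmt`), `LciStmt`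
gives `f' ∈ I' \ S`, so `f' ∈ I`, `f' ≠ f`; `J = I' + e1 - f'`; by `LtwStmt` `I + e1 - f` or
`I + e1 - f'` is `N`-independent, so it is an upward neighbour and near `J`. -/
def VbrStmt : Prop :=
  ∀ (α : Type) [DecidableEq α] (M N : Mat α) (n : ℕ) (S I : Finset α) (e f e1 f1 : α),
    Setup M N n S → CI M N n I → 2 ≤ (I \ S).card →
    Up M N S I e f → Up M N S I e1 f1 →
    ¬ M.Ind (insert e I) → ¬ N.Ind (insert e I) → M.Ind (insert e1 I) → ¬ N.Ind (insert e1 I) →
    ∃ x x1 J, Up M N S I e x ∧ Up M N S I e1 x1 ∧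
      Four M N n S I (insert e (I.erase x)) (insert e1 (I.erase x1)) J

/-- VBF. `e` dependent in both, `e3` free: `I - f + e + e3` is common independent (`LspStmt`),
remove `f3' ∈ I \ S`, `f3' ≠ f`. -/
def VbfStmt : Prop :=
  ∀ (α : Type) [DecidableEq α] (M N : Mat α) (n : ℕ) (S I : Finset α) (e f e3 f3 : α),
    Setup M N n S → CI M N n I → 2 ≤ (I \ S).card →
    Up M N S I e f → Up M N S I e3 f3 →
    ¬ M.Ind (insert e I) → ¬ N.Ind (insert e I) → M.Ind (insert e3 I) → N.Ind (insert e3 I) →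
    ∃ x x3 J, Up M N S I e x ∧ Up M N S I e3 x3 ∧
      Four M N n S I (insert e (I.erase x)) (insert e3 (I.erase x3)) J

/-- VSE. Same `e`: the two neighbours `I - f + e`, `I - f' + e` are near and `Alw` (they differ
in `f, f' ∉ S`); use `Clo` on the triangle (`D = A`) and `Pot (k+1)`. -/
def VseStmt : Prop :=
  ∀ (α : Type) [DecidableEq α] (M N : Mat α) (n : ℕ) (S : Finset α)
    (φ : Finset α → Finset α → ℤ) (θ : Finset α → ℤ) (k : ℕ) (I : Finset α) (e f f' : α),
    Clo M N n φ → Pot M N n S φ (k + 1) θ →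
    CI M N n I → (I ∩ S).card = k → Up M N S I e f → Up M N S I e f' →
    θ (insert e (I.erase f)) - φ I (insert e (I.erase f)) =
      θ (insert e (I.erase f')) - φ I (insert e (I.erase f'))

/-- VFO. A fourth vertex gives equality: `Clo` on the square `I, A, J, B`, `Pot (k+1)` on the
edges `A J` and `J B`. (`A = I - f + e`, `B = I - f' + e'` are states of level `k + 1`.) -/
def VfoStmt : Prop :=
  ∀ (α : Type) [DecidableEq α] (M N : Mat α) (n : ℕ) (S : Finset α)
    (φ : Finset α → Finset α → ℤ) (θ : Finset α → ℤ) (k : ℕ) (I J : Finset α) (e f e' f' : α),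
    Clo M N n φ → Pot M N n S φ (k + 1) θ →
    CI M N n I → (I ∩ S).card = k → Up M N S I e f → Up M N S I e' f' →
    Four M N n S I (insert e (I.erase f)) (insert e' (I.erase f')) J →
    θ (insert e (I.erase f)) - φ I (insert e (I.erase f)) =
      θ (insert e' (I.erase f')) - φ I (insert e' (I.erase f'))

/-- VLO. The case `|I \ S| = 1`: all `f` are equal, `I = S - a - b + f`, the upward neighbours
are `S - a`, `S - b` (both inside `S`, so the edge is `Alw`): triangle. -/
def VloStmt : Prop :=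
  ∀ (α : Type) [DecidableEq α] (M N : Mat α) (n : ℕ) (S : Finset α)
    (φ : Finset α → Finset α → ℤ) (θ : Finset α → ℤ) (k : ℕ) (I : Finset α) (e f e' f' : α),
    Setup M N n S → Clo M N n φ → Pot M N n S φ (k + 1) θ →
    CI M N n I → (I ∩ S).card = k → (I \ S).card = 1 → Up M N S I e f → Up M N S I e' f' →
    θ (insert e (I.erase f)) - φ I (insert e (I.erase f)) =
      θ (insert e' (I.erase f')) - φ I (insert e' (I.erase f'))

/-- VAL. All upward exchanges at `I` give the same value of `θ I`. `|I \ S| = 1`: `VloStmt`.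
`2 ≤ |I \ S|`: types of `e`: row (`M` free, `N` dependent), column, free, both dependent. Same
`e`: `VseStmt`. Different `e`: `VrcStmt`, `VrfStmt`, `VffStmt`, `VbrStmt`, `VbfStmt` and their
mirror images (exchange `M` and `N`; `Up`, `CI`, `Clo`, `Four` are symmetric), with `VfoStmt` and
`VseStmt`. There is a free `e0`, or a row and a column exchange (augment `I` by `S` in `M` and in
`N`; a row or column element with `LciStmt`, a free one with any `f`, gives an upward exchange),
so everything is connected: row - row over a column or free element, and so on. -/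
def ValStmt : Prop :=
  ∀ (α : Type) [DecidableEq α] (M N : Mat α) (n : ℕ) (S : Finset α)
    (φ : Finset α → Finset α → ℤ) (θ : Finset α → ℤ) (k : ℕ) (I : Finset α) (e f e' f' : α),
    Setup M N n S → Clo M N n φ → Pot M N n S φ (k + 1) θ →
    CI M N n I → (I ∩ S).card = k → Up M N S I e f → Up M N S I e' f' →
    θ (insert e (I.erase f)) - φ I (insert e (I.erase f)) =
      θ (insert e' (I.erase f')) - φ I (insert e' (I.erase f'))

/-- HOR. Horizontal edges. `I = K + h`, `I' = K + g`, `h, g ∉ S`.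
(H1) if some `e ∈ S`, `e ∉ K`, has `K + e` common independent: triangle `I, I', K + e`
(`K + e` is an upward neighbour of both). (H2) if some `e ∈ S \ K` has `K + h + e` and
`K + g + e` both `M`-independent (then `K + e` is `M`-independent, so `N`-dependent by not (H1);
`LciStmt`: `f ∈ K \ S` with `K + e - f` `N`-independent; `LspStmt`: `K + h + e - f`,
`K + g + e - f` are `N`-independent): square. (H2') the same with `M`, `N` exchanged.
Otherwise: some `e ∈ S` has `K + h + e` `M`-independent (augment `I` by `S`), not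
`K + g + e`; augment `K + g` by `K + h + e`: the new element is `h` (as `e` is impossible), so
`K + h + g` is `M`-independent; same for `N`. The three negations are exactly the last lines
(arcs at `P = K + h + g`: `Arc M P g e` is `M.Ind (K + h + e)`). -/
def HorStmt : Prop :=
  ∀ (α : Type) [DecidableEq α] (M N : Mat α) (n : ℕ) (S : Finset α)
    (φ : Finset α → Finset α → ℤ) (θ : Finset α → ℤ) (k : ℕ) (K : Finset α) (h g : α),
    Setup M N n S → Clo M N n φ → Vert M N n S φ k θ →
    h ∉ K → g ∉ K → h ≠ g → h ∉ S → g ∉ S → CI M N n (insert h K) → CI M N n (insert g K) →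
    (K ∩ S).card = k →
    φ (insert h K) (insert g K) = θ (insert g K) - θ (insert h K) ∨
    (CI M N (n + 1) (insert h (insert g K)) ∧
      ∀ e ∈ S, e ∉ K →
        ¬ ((M.Ind (insert e (insert h K)) ∨ M.Ind (insert e (insert g K))) ∧
            (N.Ind (insert e (insert h K)) ∨ N.Ind (insert e (insert g K)))) ∧
        ¬ (M.Ind (insert e (insert h K)) ∧ M.Ind (insert e (insert g K))) ∧
        ¬ (N.Ind (insert e (insert h K)) ∧ N.Ind (insert e (insert g K))))

/-- EXT. From `Pot (k+1)` to `Vert k`: `θ' I = θ I` if the level of `I` is at least `k + 1`, and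
`θ' I = θ (I - f + e) - φ I (I - f + e)` for a chosen upward exchange if the level is `k`
(for `k < n` it exists by `UpeStmt`), `ValStmt` gives all the others. -/
def ExtStmt : Prop :=
  ∀ (α : Type) [DecidableEq α] (M N : Mat α) (n : ℕ) (S : Finset α)
    (φ : Finset α → Finset α → ℤ) (θ : Finset α → ℤ) (k : ℕ),
    Setup M N n S → Clo M N n φ → Pot M N n S φ (k + 1) θ → ∃ θ', Vert M N n S φ k θ'

/-- FIL. `Vert k` plus consistency at all common bases gives `Pot k`. Cases for a near pair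
`I ≠ J` of levels `≥ k`: both levels `≥ k+1`: `Pot (k+1)`; levels `k` and `k+1` (or `k+1`, `k`):
the difference is an upward exchange (sign by `φ B A = - φ A B` from `Clo`); both levels `k`:
the elements changed are both outside `S` (both in `S` is excluded by `Alw` unless
`I, J ⊆ S`, where `k = n`), `HorStmt`, and in the second case of `HorStmt` the hypothesis.
If `k = n`: all states of level `n` are inside `S`; then `Vert n` is not enough, so this
statement is only for `k < n`. -/
def FilStmt : Prop :=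
  ∀ (α : Type) [DecidableEq α] (M N : Mat α) (n : ℕ) (S : Finset α)
    (φ : Finset α → Finset α → ℤ) (θ : Finset α → ℤ) (k : ℕ),
    Setup M N n S → Clo M N n φ → k < n → Vert M N n S φ k θ →
    (∀ P x y, CI M N (n + 1) P → (P ∩ S).card = k → x ∈ P → y ∈ P → x ∉ S → y ∉ S →
      Cons φ θ P x y) →
    Pot M N n S φ k θ

/-- TOP. The top level: `θ (S - a) = φ (S - a₀) (S - a)`; all states of level `≥ n` are
`S - a`. -/
def TopStmt : Prop :=
  ∀ (α : Type) [DecidableEq α] (M N : Mat α) (n : ℕ) (S : Finset α)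
    (φ : Finset α → Finset α → ℤ),
    Setup M N n S → Clo M N n φ → ∃ θ, Pot M N n S φ n θ

/-! ### Cycles, paths, configurations -/

/-- CYC. A chordless cycle inside a closed class `X`. Take a shortest closed sequence
`(h i, e i)`, `i < m`, `h m = h 0`, `h i ∈ X`, `e i ∈ S \ P`, `Arc M P (h i) (e i)`,
`Arc N P (h (i+1)) (e i)` (exists: follow out-arcs in the finite set `X`). A chord
`Arc M P (h i) (e j)`, `i ≠ j`, or `Arc N P (h (i+1)) (e j)`, or a repetition gives a shorter
one. `m = 1` is excluded by the last hypothesis. -/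
def CycStmt : Prop :=
  ∀ (α : Type) [DecidableEq α] (M N : Mat α) (P S X : Finset α),
    X.Nonempty → (∀ u ∈ X, u ∈ P ∧ u ∉ S) →
    (∀ u ∈ X, ∃ e ∈ S, e ∉ P ∧ Arc M P u e ∧ ∃ v ∈ X, Arc N P v e) →
    (∀ u ∈ X, ∀ e ∈ S, e ∉ P → ¬ (Arc M P u e ∧ Arc N P u e)) →
    ∃ (m : ℕ) (h e : ℕ → α), Cyc M N P S m h e ∧ ∀ i, i ≤ m → h i ∈ X

/-- ROT. Rotation of a cycle: the new `h 0` is the old `h r`, the new last `e` is the old
`e (r - 1)` (old `e (m - 1)` if `r = 0`). -/
def RotStmt : Prop :=
  ∀ (α : Type) [DecidableEq α] (M N : Mat α) (P S : Finset α) (m : ℕ) (h e : ℕ → α) (r : ℕ),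
    Cyc M N P S m h e → r < m →
    ∃ h' e' : ℕ → α, Cyc M N P S m h' e' ∧ h' 0 = h r ∧ h' 1 = h (r + 1) ∧
      h' (m - 1 + 1) = h r ∧ (e' (m - 1) = if r = 0 then e (m - 1) else e (r - 1)) ∧
      (∀ i, i ≤ m → ∃ j, j ≤ m ∧ h' i = h j) ∧ (∀ i, i < m → ∃ j, j < m ∧ e' i = e j) ∧
      (∀ j, j ≤ m → ∃ i, i ≤ m ∧ h' i = h j) ∧ (∀ j, j < m → ∃ i, i < m ∧ e' i = e j)

/-- PTE. A shortest path exists: from `ReflTransGen (Stp M N P) (g 0) (h 0)`, minimal `l`. -/
def PteStmt : Prop :=
  ∀ (α : Type) [DecidableEq α] (M N : Mat α) (P S : Finset α) (a b : ℕ) (g d h e : ℕ → α),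
    Cyc N M P S a g d → Cyc M N P S b h e →
    (∀ x ∈ P, ∀ y ∈ P, Relation.ReflTransGen (Stp M N P) x y) →
    ∃ (l : ℕ) (f z : ℕ → α), Pth M N P a l b g f z h ∧
      ∀ (l' : ℕ) (f' z' : ℕ → α), Pth M N P a l' b g f' z' h → l ≤ l'

/-- PTM. Properties of a shortest path. Every forbidden equality or arc gives a shorter one
(`m3`: end with `e j`, `h (j+1)`; `n3`: start with `g (j+1)`, `d j`, `f i`; `1 ≤ l` since
`g i ≠ h j`). -/
def PtmStmt : Prop :=
  ∀ (α : Type) [DecidableEq α] (M N : Mat α) (P S : Finset α) (a l b : ℕ)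
    (g d f z h e : ℕ → α),
    Cyc N M P S a g d → Cyc M N P S b h e → Sep M N P a b g d h e →
    Pth M N P a l b g f z h →
    (∀ (l' : ℕ) (f' z' : ℕ → α), Pth M N P a l' b g f' z' h → l ≤ l') →
    1 ≤ l ∧ (∀ i j, i ≤ a → 1 ≤ j → j ≤ l → f j ≠ g i) ∧ (∀ i j, i ≤ b → j < l → f j ≠ h i) ∧
    (∀ i j, i ≤ a → 1 ≤ j → j < l → ¬ Arc M P (g i) (z j)) ∧
    (∀ i j, i < j → j < l → ¬ Arc M P (f i) (z j)) ∧
    (∀ i j, i + 1 < l → j < b → ¬ Arc M P (f i) (e j)) ∧
    (∀ i j, i ≤ b → j + 1 < l → ¬ Arc N P (h i) (z j)) ∧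
    (∀ i j, j + 1 < i → i ≤ l → ¬ Arc N P (f i) (z j)) ∧
    (∀ i j, 2 ≤ i → i ≤ l → j < a → ¬ Arc N P (f i) (d j))

/-- PTA. Existence of `Pre`: `PteStmt`, and `PtmStmt` for the modified path. If `l ≥ 2` and
`Arc M P (f (l-1)) (e j)` for some `j`, replace `z (l-1)` by `e j` and `f l` by `h (j+1)`; if
`l ≥ 2` and `Arc N P (f 1) (d j)` for some `j`, replace `z 0` by `d j` and `f 0` by `g (j+1)`
(the length is still minimal). For `l = 1` the second alternatives of `q1`, `q2` hold by
`Sep`. -/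
def PtaStmt : Prop :=
  ∀ (α : Type) [DecidableEq α] (M N : Mat α) (P S : Finset α) (a b : ℕ) (g d h e : ℕ → α),
    Cyc N M P S a g d → Cyc M N P S b h e → Sep M N P a b g d h e →
    (∀ x ∈ P, ∀ y ∈ P, Relation.ReflTransGen (Stp M N P) x y) →
    ∃ (l : ℕ) (f z : ℕ → α), Pre M N P a l b g d f z h e

/-- PTB. From `Pre` to `Conf` by rotating the two cycles (`RotStmt` for `(g, d)` with `M, N`
exchanged and for `(h, e)`). The remaining fields: `zd`: `z j = d i` with `1 ≤ j` contradicts
`m1` (`Arc M P (g (i+1)) (d i)`), with `j = 0` chordlessness gives `g (i+1) = g 0`; `ze` dual;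
`finj`, `zinj` from `m2` and `fg`, `fh`; `de` from `Sep`. -/
def PtbStmt : Prop :=
  ∀ (α : Type) [DecidableEq α] (M N : Mat α) (P S : Finset α) (a l b : ℕ)
    (g d f z h e : ℕ → α),
    Cyc N M P S a g d → Cyc M N P S b h e → Sep M N P a b g d h e →
    Pre M N P a l b g d f z h e →
    ∃ g' d' h' e' : ℕ → α, Conf M N P S a l b g' d' f z h' e' ∧
      (∃ i, i ≤ a ∧ g' 0 = g i) ∧ (∃ i, i ≤ b ∧ h' 0 = h i)

/-- MTR. Independence from one half. `TriStmt` with the list
`[z 0 if it is on] ++ [d x, x ∈ X] ++ [z y, y ≥ 1 on, not the last one if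
z (l-1) = e (b-1)] ++ [e y, y ∈ Y] ++ [z (l-1) in the case z (l-1) = e (b-1)]` and the partners
`z y ↔ f y`, `d x ↔ g (x+1)`, `e y ↔ h y`. -/
def MtrStmt : Prop :=
  ∀ (α : Type) [DecidableEq α] (M : Mat α) (P : Finset α) (a l b : ℕ)
    (g d f z h e : ℕ → α) (i j : ℕ) (X Y : Finset ℕ),
    M.Rk P.card → M.Ind P → 1 ≤ a → 1 ≤ l → 1 ≤ b → Half M P a l b g d f z h e →
    (∀ i, i ≤ a → g i ∈ P) → (∀ i, i ≤ l → f i ∈ P) → (∀ i, i < b → h i ∈ P) →
    (∀ i, i < a → d i ∉ P) → (∀ i, i < l → z i ∉ P) → (∀ i, i < b → e i ∉ P) →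
    (∀ i j, i < a → j < a → g (i + 1) = g (j + 1) → i = j) → g a = g 0 → f 0 = g 0 →
    (∀ i j, i < a → j < a → d i = d j → i = j) →
    (∀ i j, i < l → j < l → f i = f j → i = j) → (∀ i j, i < l → j < l → z i = z j → i = j) →
    (∀ i j, i < b → j < b → h i = h j → i = j) → (∀ i j, i < b → j < b → e i = e j → i = j) →
    (∀ i j, i ≤ a → 1 ≤ j → j < l → f j ≠ g i) → (∀ i j, i < b → j < l → f j ≠ h i) →
    (∀ i j, i ≤ a → j < b → g i ≠ h j) → (∀ i j, i < a → j < b → d i ≠ e j) →
    (∀ i j, i < a → j < l → z j = d i → j = 0 ∧ i = a - 1) →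
    (∀ i j, i < b → j < l → z j = e i → j = l - 1 ∧ i = b - 1) →
    i ≤ j → j ≤ l → X ⊆ Finset.range a → Y ⊆ Finset.range b →
    (i = 0 → 0 < j → a - 1 ∉ X) → (j = l → i < l → b - 1 ∉ Y) →
    M.Ind ((P \ (X.image (fun x => g (x + 1)) ∪ (Finset.Ico i j).image f ∪ Y.image h)) ∪
      (X.image d ∪ (Finset.Ico i j).image z ∪ Y.image e))

/-- REV. The reversed configuration. Field by field. -/
def RevStmt : Prop :=
  ∀ (α : Type) [DecidableEq α] (M N : Mat α) (P S : Finset α) (a l b : ℕ)
    (g d f z h e : ℕ → α), Conf M N P S a l b g d f z h e →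
    Conf N M P S b l a h e (fun j => f (l - j)) (fun j => z (l - 1 - j)) g d

/-- VSA. `M`-independence. `MtrStmt` with `X`, `Y` (hypotheses on `a - 1 ∉ X`, `b - 1 ∉ Y` from
the modes), then the subset: `VS` removes at least `{g (x+1) : x ∈ X}` (`g a = g 0`),
`f i, ..., f (j-1)`, `{h y : y ∈ Y}`. -/
def VsaStmt : Prop :=
  ∀ (α : Type) [DecidableEq α] (M N : Mat α) (n : ℕ) (P S : Finset α) (a l b : ℕ)
    (g d f z h e : ℕ → α) (i j : ℕ) (X RX Y RY : Finset ℕ),
    Setup M N n S → CI M N (n + 1) P → Conf M N P S a l b g d f z h e →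
    i ≤ j → j ≤ l → Mo1 a i X RX → Mo2 b l j Y RY →
    M.Ind (VS P g d f z h e i j X RX Y RY)

/-- VSB. `N`-independence: `RevStmt` and `VsaStmt` for the segment `[l - j, l - i]` of the
reversed path (`Mo1`, `Mo2` change their roles), and `VS` of the reversed data is the same
set. -/
def VsbStmt : Prop :=
  ∀ (α : Type) [DecidableEq α] (M N : Mat α) (n : ℕ) (P S : Finset α) (a l b : ℕ)
    (g d f z h e : ℕ → α) (i j : ℕ) (X RX Y RY : Finset ℕ),
    Setup M N n S → CI M N (n + 1) P → Conf M N P S a l b g d f z h e →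
    i ≤ j → j ≤ l → Mo1 a i X RX → Mo2 b l j Y RY →
    N.Ind (VS P g d f z h e i j X RX Y RY)

/-- VSC. Size: removed elements minus added elements is one. Removed: `RX.image g`,
`f i, ..., f j`, `RY.image h`, overlaps exactly `f 0 = g 0` (when `i = 0`) and `f l = h 0`
(when `j = l`). Added: `X.image d`, `z i, ..., z (j-1)`, `Y.image e`, pairwise disjoint in the
given modes. -/
def VscStmt : Prop :=
  ∀ (α : Type) [DecidableEq α] (M N : Mat α) (n : ℕ) (P S : Finset α) (a l b : ℕ)
    (g d f z h e : ℕ → α) (i j : ℕ) (X RX Y RY : Finset ℕ),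
    CI M N (n + 1) P → Conf M N P S a l b g d f z h e →
    i ≤ j → j ≤ l → Mo1 a i X RX → Mo2 b l j Y RY →
    (VS P g d f z h e i j X RX Y RY).card = n

/-- VST. The sets `VS` are states: `VsaStmt`, `VsbStmt`, `VscStmt`. -/
def VstStmt : Prop :=
  ∀ (α : Type) [DecidableEq α] (M N : Mat α) (n : ℕ) (P S : Finset α) (a l b : ℕ)
    (g d f z h e : ℕ → α) (i j : ℕ) (X RX Y RY : Finset ℕ),
    Setup M N n S → CI M N (n + 1) P → Conf M N P S a l b g d f z h e →
    i ≤ j → j ≤ l → Mo1 a i X RX → Mo2 b l j Y RY →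
    CI M N n (VS P g d f z h e i j X RX Y RY)

/-! ### Discrete Green and the commutator -/

/-- GRE. Green on a rectangle. -/
def GreStmt : Prop :=
  ∀ (β : Type) (φ : β → β → ℤ) (A : ℕ → ℕ → β) (p q : ℕ),
    (∀ i j, i < p → j < q →
      φ (A i j) (A (i + 1) j) + φ (A (i + 1) j) (A (i + 1) (j + 1)) =
        φ (A i j) (A i (j + 1)) + φ (A i (j + 1)) (A (i + 1) (j + 1))) →
    (∑ i ∈ Finset.range p, φ (A i 0) (A (i + 1) 0)) +
        (∑ j ∈ Finset.range q, φ (A p j) (A p (j + 1))) =
      (∑ j ∈ Finset.range q, φ (A 0 j) (A 0 (j + 1))) +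
        (∑ i ∈ Finset.range p, φ (A i q) (A (i + 1) q))

/-- TRG. Green on a triangle `0 ≤ i ≤ j ≤ l`. Induction on `l`. -/
def TrgStmt : Prop :=
  ∀ (β : Type) (φ : β → β → ℤ) (A : ℕ → ℕ → β) (l : ℕ),
    (∀ i, i < l → φ (A i i) (A (i + 1) (i + 1)) =
      φ (A i i) (A i (i + 1)) + φ (A i (i + 1)) (A (i + 1) (i + 1))) →
    (∀ i j, i < j → j < l →
      φ (A i j) (A i (j + 1)) + φ (A i (j + 1)) (A (i + 1) (j + 1)) =
        φ (A i j) (A (i + 1) j) + φ (A (i + 1) j) (A (i + 1) (j + 1))) →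
    (∑ i ∈ Finset.range l, φ (A i i) (A (i + 1) (i + 1))) =
      (∑ j ∈ Finset.range l, φ (A 0 j) (A 0 (j + 1))) +
        (∑ i ∈ Finset.range l, φ (A i l) (A (i + 1) l))

/-- ADT. Near pairs of the triangles. Useful for all `AD*`: for `A, A'` disjoint from `P` the
difference of `(P \ R) ∪ A` and `(P \ R') ∪ A'` is inside `(R' \ R) ∪ (A \ A')`. In the third
line (`i ≤ l`, `j ≤ l`) the sets are `Q` minus one element, where `Q` is `P` with the switched
cycles exchanged. -/
def AdtStmt : Prop :=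
  ∀ (α : Type) [DecidableEq α] (M N : Mat α) (P S : Finset α) (a l b : ℕ)
    (g d f z h e : ℕ → α), Conf M N P S a l b g d f z h e →
    (∀ σ τ i j, i ≤ j → j < l →
      Near (TT P a l b g d f z h e σ τ i j) (TT P a l b g d f z h e σ τ i (j + 1))) ∧
    (∀ σ τ i j, i < j → j ≤ l →
      Near (TT P a l b g d f z h e σ τ i j) (TT P a l b g d f z h e σ τ (i + 1) j))

def AduStmt : Prop :=
  ∀ (α : Type) [DecidableEq α] (M N : Mat α) (P S : Finset α) (a l b : ℕ)
    (g d f z h e : ℕ → α), Conf M N P S a l b g d f z h e →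
    (∀ σ τ i j, i ≤ l → j ≤ l →
      Near (TT P a l b g d f z h e σ τ i i) (TT P a l b g d f z h e σ τ j j))

def AdcStmt : Prop :=
  ∀ (α : Type) [DecidableEq α] (M N : Mat α) (P S : Finset α) (a l b : ℕ)
    (g d f z h e : ℕ → α), Conf M N P S a l b g d f z h e →
    (∀ τ t j, t + 1 < a → j ≤ l →
      Near (CC P l b g d f z h e τ t j) (CC P l b g d f z h e τ (t + 1) j)) ∧
    (∀ τ t j, t < a → j < l →
      Near (CC P l b g d f z h e τ t j) (CC P l b g d f z h e τ t (j + 1)))

def AddStmt : Prop :=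
  ∀ (α : Type) [DecidableEq α] (M N : Mat α) (P S : Finset α) (a l b : ℕ)
    (g d f z h e : ℕ → α), Conf M N P S a l b g d f z h e →
    (∀ σ i u, i ≤ l → u + 1 < b →
      Near (DD P a l g d f z h e σ i u) (DD P a l g d f z h e σ i (u + 1))) ∧
    (∀ σ i u, i < l → u < b →
      Near (DD P a l g d f z h e σ i u) (DD P a l g d f z h e σ (i + 1) u))

def AdgStmt : Prop :=
  ∀ (α : Type) [DecidableEq α] (M N : Mat α) (P S : Finset α) (a l b : ℕ)
    (g d f z h e : ℕ → α), Conf M N P S a l b g d f z h e →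
    (∀ t u, t + 1 < a → u < b →
      Near (GG P l g d f z h e t u) (GG P l g d f z h e (t + 1) u)) ∧
    (∀ t u, t < a → u + 1 < b →
      Near (GG P l g d f z h e t u) (GG P l g d f z h e t (u + 1)))

/-- ADJ. All the near pairs in the four families: conjunction of the previous statements. -/
def AdjStmt : Prop :=
  ∀ (α : Type) [DecidableEq α] (M N : Mat α) (P S : Finset α) (a l b : ℕ)
    (g d f z h e : ℕ → α), Conf M N P S a l b g d f z h e →
    (∀ σ τ i j, i ≤ j → j < l →
      Near (TT P a l b g d f z h e σ τ i j) (TT P a l b g d f z h e σ τ i (j + 1))) ∧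
    (∀ σ τ i j, i < j → j ≤ l →
      Near (TT P a l b g d f z h e σ τ i j) (TT P a l b g d f z h e σ τ (i + 1) j)) ∧
    (∀ σ τ i j, i ≤ l → j ≤ l →
      Near (TT P a l b g d f z h e σ τ i i) (TT P a l b g d f z h e σ τ j j)) ∧
    (∀ τ t j, t + 1 < a → j ≤ l →
      Near (CC P l b g d f z h e τ t j) (CC P l b g d f z h e τ (t + 1) j)) ∧
    (∀ τ t j, t < a → j < l →
      Near (CC P l b g d f z h e τ t j) (CC P l b g d f z h e τ t (j + 1))) ∧
    (∀ σ i u, i ≤ l → u + 1 < b →
      Near (DD P a l g d f z h e σ i u) (DD P a l g d f z h e σ i (u + 1))) ∧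
    (∀ σ i u, i < l → u < b →
      Near (DD P a l g d f z h e σ i u) (DD P a l g d f z h e σ (i + 1) u)) ∧
    (∀ t u, t + 1 < a → u < b →
      Near (GG P l g d f z h e t u) (GG P l g d f z h e (t + 1) u)) ∧
    (∀ t u, t < a → u + 1 < b →
      Near (GG P l g d f z h e t u) (GG P l g d f z h e t (u + 1)))

/-- CGR. The grid: `GreStmt`, `VstStmt` (`Mo1` with `i = 0`, `Mo2` with `j = l`), `AdjStmt`,
`Clo` (with `φ B A = - φ A B` from `Clo A B A B`). -/
def CgrStmt : Prop :=
  ∀ (α : Type) [DecidableEq α] (M N : Mat α) (n : ℕ) (P S : Finset α) (a l b : ℕ)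
    (g d f z h e : ℕ → α) (φ : Finset α → Finset α → ℤ),
    Setup M N n S → CI M N (n + 1) P → Conf M N P S a l b g d f z h e → Clo M N n φ →
    (∑ t ∈ Finset.range (a - 1), φ (GG P l g d f z h e t 0) (GG P l g d f z h e (t + 1) 0)) +
        (∑ u ∈ Finset.range (b - 1), φ (GG P l g d f z h e (a - 1) u)
          (GG P l g d f z h e (a - 1) (u + 1))) =
      (∑ u ∈ Finset.range (b - 1), φ (GG P l g d f z h e 0 u) (GG P l g d f z h e 0 (u + 1))) +
        (∑ t ∈ Finset.range (a - 1), φ (GG P l g d f z h e t (b - 1))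
          (GG P l g d f z h e (t + 1) (b - 1)))

/-- CST. The strips of the first cycle. `GreStmt`, `VstStmt`, `AdjStmt`, `Clo`. -/
def CstStmt : Prop :=
  ∀ (α : Type) [DecidableEq α] (M N : Mat α) (n : ℕ) (P S : Finset α) (a l b : ℕ)
    (g d f z h e : ℕ → α) (φ : Finset α → Finset α → ℤ) (τ : Bool),
    Setup M N n S → CI M N (n + 1) P → Conf M N P S a l b g d f z h e → Clo M N n φ →
    (∑ t ∈ Finset.range (a - 1), φ (CC P l b g d f z h e τ t 0)
          (CC P l b g d f z h e τ (t + 1) 0)) +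
        (∑ j ∈ Finset.range l, φ (CC P l b g d f z h e τ (a - 1) j)
          (CC P l b g d f z h e τ (a - 1) (j + 1))) =
      (∑ j ∈ Finset.range l, φ (CC P l b g d f z h e τ 0 j) (CC P l b g d f z h e τ 0 (j + 1))) +
        (∑ t ∈ Finset.range (a - 1), φ (CC P l b g d f z h e τ t l)
          (CC P l b g d f z h e τ (t + 1) l))

/-- DST. The strips of the second cycle. `GreStmt`, `VstStmt`, `AdjStmt`, `Clo`. -/
def DstStmt : Prop :=
  ∀ (α : Type) [DecidableEq α] (M N : Mat α) (n : ℕ) (P S : Finset α) (a l b : ℕ)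
    (g d f z h e : ℕ → α) (φ : Finset α → Finset α → ℤ) (σ : Bool),
    Setup M N n S → CI M N (n + 1) P → Conf M N P S a l b g d f z h e → Clo M N n φ →
    (∑ i ∈ Finset.range l, φ (DD P a l g d f z h e σ i 0) (DD P a l g d f z h e σ (i + 1) 0)) +
        (∑ u ∈ Finset.range (b - 1), φ (DD P a l g d f z h e σ l u)
          (DD P a l g d f z h e σ l (u + 1))) =
      (∑ u ∈ Finset.range (b - 1), φ (DD P a l g d f z h e σ 0 u)
          (DD P a l g d f z h e σ 0 (u + 1))) +
        (∑ i ∈ Finset.range l, φ (DD P a l g d f z h e σ i (b - 1))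
          (DD P a l g d f z h e σ (i + 1) (b - 1)))

/-- TTR. The triangles. `TrgStmt`, `VstStmt` (the four combinations of the modes), `AdjStmt`,
`Clo`; the diagonal sets are pairwise near, so the sum along the diagonal is
`φ (TT 0 0) (TT l l)`. -/
def TtrStmt : Prop :=
  ∀ (α : Type) [DecidableEq α] (M N : Mat α) (n : ℕ) (P S : Finset α) (a l b : ℕ)
    (g d f z h e : ℕ → α) (φ : Finset α → Finset α → ℤ) (σ τ : Bool),
    Setup M N n S → CI M N (n + 1) P → Conf M N P S a l b g d f z h e → Clo M N n φ →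
    φ (TT P a l b g d f z h e σ τ 0 0) (TT P a l b g d f z h e σ τ l l) =
      (∑ j ∈ Finset.range l, φ (TT P a l b g d f z h e σ τ 0 j)
          (TT P a l b g d f z h e σ τ 0 (j + 1))) +
        (∑ i ∈ Finset.range l, φ (TT P a l b g d f z h e σ τ i l)
          (TT P a l b g d f z h e σ τ (i + 1) l))

/-- COM. The commutator of the two cycles has sum zero. `CgrStmt`, `CstStmt` and `DstStmt` for
both values, `TtrStmt` for the four values, and the identifications
`CC τ 0 j = TT false τ 0 j`, `CC τ (a-1) j = TT true τ 0 j`, `DD σ i 0 = TT σ false i l`,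
`DD σ i (b-1) = TT σ true i l`, `GG t 0 = CC false t l`, `GG t (b-1) = CC true t l`,
`GG 0 u = DD false 0 u`, `GG (a-1) u = DD true 0 u` (unfold), then `linarith` (with
`φ B A = - φ A B` from `Clo`). -/
def ComStmt : Prop :=
  ∀ (α : Type) [DecidableEq α] (M N : Mat α) (n : ℕ) (P S : Finset α) (a l b : ℕ)
    (g d f z h e : ℕ → α) (φ : Finset α → Finset α → ℤ),
    Setup M N n S → CI M N (n + 1) P → Conf M N P S a l b g d f z h e → Clo M N n φ →
    (∑ t ∈ Finset.range (a - 1), φ (CC P l b g d f z h e false t 0)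
        (CC P l b g d f z h e false (t + 1) 0)) +
      φ (TT P a l b g d f z h e true false 0 0) (TT P a l b g d f z h e true false l l) +
      (∑ u ∈ Finset.range (b - 1), φ (DD P a l g d f z h e true l u)
        (DD P a l g d f z h e true l (u + 1))) +
      φ (TT P a l b g d f z h e true true l l) (TT P a l b g d f z h e true true 0 0) +
      φ (TT P a l b g d f z h e false true 0 0) (TT P a l b g d f z h e false true l l) +
      φ (TT P a l b g d f z h e false false l l) (TT P a l b g d f z h e false false 0 0) =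
    (∑ t ∈ Finset.range (a - 1), φ (CC P l b g d f z h e true t 0)
        (CC P l b g d f z h e true (t + 1) 0)) +
      (∑ u ∈ Finset.range (b - 1), φ (DD P a l g d f z h e false l u)
        (DD P a l g d f z h e false l (u + 1)))

/-- CNA. The sums along the first cycle: upward exchanges (`g (t+1)` out, `d t` in) from level
`k + t` (`τ = false`) or `k + b + t`; `Vert` (the first one for `τ = false` starts at level `k`),
`VstStmt`; telescoping. -/
def CnaStmt : Prop :=
  ∀ (α : Type) [DecidableEq α] (M N : Mat α) (n : ℕ) (P S : Finset α) (a l b : ℕ)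
    (g d f z h e : ℕ → α) (φ : Finset α → Finset α → ℤ) (θ : Finset α → ℤ) (k : ℕ) (τ : Bool),
    Setup M N n S → CI M N (n + 1) P → Conf M N P S a l b g d f z h e → Clo M N n φ →
    (P ∩ S).card = k → Vert M N n S φ k θ →
    (∑ t ∈ Finset.range (a - 1), φ (CC P l b g d f z h e τ t 0)
        (CC P l b g d f z h e τ (t + 1) 0)) =
      θ (CC P l b g d f z h e τ (a - 1) 0) - θ (CC P l b g d f z h e τ 0 0)

/-- CNB. The sums along the second cycle: upward exchanges (`h (u+1)` out, `e u` in) from level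
`k + u` (`σ = false`) or `k + a + u`. -/
def CnbStmt : Prop :=
  ∀ (α : Type) [DecidableEq α] (M N : Mat α) (n : ℕ) (P S : Finset α) (a l b : ℕ)
    (g d f z h e : ℕ → α) (φ : Finset α → Finset α → ℤ) (θ : Finset α → ℤ) (k : ℕ) (σ : Bool),
    Setup M N n S → CI M N (n + 1) P → Conf M N P S a l b g d f z h e → Clo M N n φ →
    (P ∩ S).card = k → Vert M N n S φ k θ →
    (∑ u ∈ Finset.range (b - 1), φ (DD P a l g d f z h e σ l u)
        (DD P a l g d f z h e σ l (u + 1))) =
      θ (DD P a l g d f z h e σ l (b - 1)) - θ (DD P a l g d f z h e σ l 0)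

/-- CNC. Three `TT` edges. `TT true false 0 0 = Q - d (a-1)`, `TT true false l l = Q - h 0` with
`Q = P - g's + d's`; `TT false true 0 0 = Q' - g 0`, `TT false true l l = Q' - e (b-1)` with
`Q' = P - h's + e's`: levels `≥ k + 1`, `Alw`. `TT true true l l = Q2 - e (b-1)`,
`TT true true 0 0 = Q2 - d (a-1)` with `Q2 = P - g's - h's + d's + e's`: if `Q2 ⊆ S` the edge is
`Alw`, otherwise take `w ∈ Q2`, `w ∉ S` and go over `Q2 - w` (`Q2` is a common base: it contains
two states `Q2 - d (a-1)`, ... ; only `Q2 - w` common independent is needed: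
`VstStmt` does not give it; `w ∈ P`. `Q2` is independent by `MtrStmt` for the segment
`i = j = l` and `X = range a`, `Y = range b` (and its mirror image), `i < l` fails so there is
no condition on `b - 1`). -/
def CncStmt : Prop :=
  ∀ (α : Type) [DecidableEq α] (M N : Mat α) (n : ℕ) (P S : Finset α) (a l b : ℕ)
    (g d f z h e : ℕ → α) (φ : Finset α → Finset α → ℤ) (θ : Finset α → ℤ) (k : ℕ),
    Setup M N n S → CI M N (n + 1) P → Conf M N P S a l b g d f z h e → Clo M N n φ →
    (P ∩ S).card = k → Vert M N n S φ k θ →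
    φ (TT P a l b g d f z h e true false 0 0) (TT P a l b g d f z h e true false l l) =
        θ (TT P a l b g d f z h e true false l l) - θ (TT P a l b g d f z h e true false 0 0) ∧
      φ (TT P a l b g d f z h e true true l l) (TT P a l b g d f z h e true true 0 0) =
        θ (TT P a l b g d f z h e true true 0 0) - θ (TT P a l b g d f z h e true true l l) ∧
      φ (TT P a l b g d f z h e false true 0 0) (TT P a l b g d f z h e false true l l) =
        θ (TT P a l b g d f z h e false true l l) - θ (TT P a l b g d f z h e false true 0 0)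

/-- CON. A configuration makes `g 0`, `h 0` consistent: `ComStmt`, `CnaStmt`, `CnbStmt` (both
values), `CncStmt`, the identifications of the ends (`CC τ 0 0 = TT false τ 0 0`,
`CC τ (a-1) 0 = TT true τ 0 0`, `DD σ l 0 = TT σ false l l`, `DD σ l (b-1) = TT σ true l l`),
`TT false false l l = P.erase (h 0)`, `TT false false 0 0 = P.erase (g 0)`, and
`φ B A = - φ A B`. -/
def ConStmt : Prop :=
  ∀ (α : Type) [DecidableEq α] (M N : Mat α) (n : ℕ) (P S : Finset α) (a l b : ℕ)
    (g d f z h e : ℕ → α) (φ : Finset α → Finset α → ℤ) (θ : Finset α → ℤ) (k : ℕ),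
    Setup M N n S → CI M N (n + 1) P → Conf M N P S a l b g d f z h e → Clo M N n φ →
    (P ∩ S).card = k → Vert M N n S φ k θ → Cons φ θ P (g 0) (h 0)

/-- CLS. All pairs are consistent. Suppose not: classes of `x` and of `y` under `Cons`
(an equivalence relation by `Clo`), `HorStmt` for `K = P - u - v`, `CycStmt` in both classes (for
the class of `x` with `M, N` exchanged), `Sep`, `PtaStmt`, `PtbStmt`, `ConStmt`. -/
def ClsStmt : Prop :=
  ∀ (α : Type) [DecidableEq α] (M N : Mat α) (n : ℕ) (S : Finset α)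
    (φ : Finset α → Finset α → ℤ) (θ : Finset α → ℤ) (k : ℕ),
    Setup M N n S → Clo M N n φ → Irr M N n → Vert M N n S φ k θ →
    ∀ P x y, CI M N (n + 1) P → (P ∩ S).card = k → x ∈ P → y ∈ P → x ∉ S → y ∉ S →
      Cons φ θ P x y

/-- POT. The potential on all states: downward induction from `TopStmt` with `ExtStmt`,
`ClsStmt`, `FilStmt`. -/
def PotStmt : Prop :=
  ∀ (α : Type) [DecidableEq α] (M N : Mat α) (n : ℕ) (S : Finset α)
    (φ : Finset α → Finset α → ℤ),
    Setup M N n S → Clo M N n φ → Irr M N n → ∃ θ, Pot M N n S φ 0 θ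

/-! ### The lattice cochain and the irreducible case -/

/-- CRO. Closed walks of length four which avoid `(b, c)`. Case distinction and `omega`. -/
def CroStmt : Prop :=
  ∀ (b c : ℕ) (p q r s : ℕ × ℕ), p ≠ (b, c) → q ≠ (b, c) → r ≠ (b, c) → s ≠ (b, c) →
    Hex p q → Hex q r → Hex r s → Hex s p →
    cr b c p q + cr b c q r + cr b c r s + cr b c s p = 0

/-- IRT. The irreducible case. `φ A B = cr b c (|A ∩ S|, |A ∩ U|) (|B ∩ S|, |B ∩ U|)`.
If the vector is not attained, `φ` is closed (`CroStmt`), so `PotStmt` gives `θ` (level `0`).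
(i) every state inside `S ∪ T` has a state inside `T` with the same `θ` (induction on
`|I \ T|`, `UpeStmt` with reference base `T`, `φ = 0` because all `U`-counts are `0`);
(ii) every state inside `T ∪ U` has a state inside `U` with the same `θ` (all `S`-counts `0`);
(iii) every state inside `S ∪ U` has a state inside `S` with
`θ J = θ I + (if c < |I ∩ U| then 1 else 0)` (`UpeStmt` with reference `S`; the step from
`U`-count `c + 1` to `c` has `S`-count `n - c = b + a`, and `a = 0` would be a hit);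
(iv) all states inside `S` have the same `θ`. So `1 = 0` when `c < n`; `c = n` is trivial. -/
def IrtStmt : Prop :=
  ∀ (α : Type) [DecidableEq α] (M N : Mat α) (n : ℕ) (S T U : Finset α) (b a c : ℕ),
    Setup M N n S → CI M N (n + 1) T → CI M N (n + 1) U →
    Disjoint S T → Disjoint S U → Disjoint T U →
    (∀ I, M.Ind I → I ⊆ S ∪ T ∪ U) → (∀ I, N.Ind I → I ⊆ S ∪ T ∪ U) → Irr M N n →
    b + a + c = n →
    ∃ I, CI M N n I ∧ (I ∩ S).card = b ∧ (I ∩ T).card = a ∧ (I ∩ U).card = c

/-! ### Reducible pairs, Kotlar-Ziv, the theorem -/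

/-- RDB. Let `P`, `x`, `y` be such that `y` is not reachable from `x`, `W` = reachable elements
of `P` (with `x`), `V = P \ W`; `A = V ∪ {z ∉ P : no Arc M P w z, w ∈ W}`,
`B = W ∪ {z ∉ P : no Arc N P v z, v ∈ V}` (inside `E = S ∪ T ∪ U`; `P ⊆ E`); `A ∪ B = E`. An
`M`-independent subset of `A` has at most `|V|` elements: otherwise augment `V` by it to `V + z`,
`z ∉ P`, and `V + z` by `P` up to `P - w + z`, `w ∈ W`. The same for `N` and `B`. -/
def RdbStmt : Prop :=
  ∀ (α : Type) [DecidableEq α] (M N : Mat α) (n : ℕ) (S T U : Finset α),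
    Setup M N n S →
    (∀ I, M.Ind I → I ⊆ S ∪ T ∪ U) → (∀ I, N.Ind I → I ⊆ S ∪ T ∪ U) → ¬ Irr M N n →
    ∃ A B V W : Finset α, A ∪ B = S ∪ T ∪ U ∧ V ⊆ A ∧ W ⊆ B ∧ V.Nonempty ∧ W.Nonempty ∧
      Disjoint V W ∧ CI M N (n + 1) (V ∪ W) ∧
      (∀ I, M.Ind I → I ⊆ A → I.card ≤ V.card) ∧ (∀ I, N.Ind I → I ⊆ B → I.card ≤ W.card)

/-- RED. A pair which is not irreducible splits. `RdbStmt`, then counting: `|S ∩ A| ≤ |V|`,
`|S ∩ B| ≤ |W|`, so there is equality and `S ∩ A ∩ B = ∅`, same for `T`, `U`, so `A ∩ B = ∅`.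
`p = |V|`, `q = |W|`. `MA` = `M` on `A`; `NA` = `N` contracted by `W`, on `A`
(`Ind I := I ⊆ A ∧ N.Ind (I ∪ W)`, `Disjoint`); `MB` = `M` contracted by `V`, on `B`; `NB` = `N`
on `B`. `N.Ind ((S ∩ A) ∪ W)`: augment `W` by `S`, elements of `S ∩ B` are impossible. The last
two lines: augment `I` by `J ∪ V`. -/
def RedStmt : Prop :=
  ∀ (α : Type) [DecidableEq α] (M N : Mat α) (n : ℕ) (S T U : Finset α),
    Setup M N n S → CI M N (n + 1) T → CI M N (n + 1) U →
    (∀ I, M.Ind I → I ⊆ S ∪ T ∪ U) → (∀ I, N.Ind I → I ⊆ S ∪ T ∪ U) → ¬ Irr M N n →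
    ∃ (A B : Finset α) (MA NA MB NB : Mat α) (p q : ℕ), p + q = n + 1 ∧ 1 ≤ p ∧ 1 ≤ q ∧
      Disjoint A B ∧ Part MA NA p A S T U ∧ Part MB NB q B S T U ∧
      (∀ I J, MA.Ind I → MB.Ind J → M.Ind (I ∪ J)) ∧
      (∀ I J, NA.Ind I → NB.Ind J → N.Ind (I ∪ J))

/-- KZG. One growth step. Proof: suppose not. `F1` = elements of `F` which are in `V` or
(outside `I` and satisfy the first condition), `F2 = F \ F1`. `|F2| ≤ |I \ V|`: otherwise augment
`I \ V` by `F2` in `M` to `I \ V + z` (`z ∉ I`) and then by `I` up to `|I|` elements: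
`I + z - f`, `f ∈ V` (or `V = ∅` and `M.Ind (insert z (I \ V))`). `|F1| ≤ |V|`: otherwise augment
`V` by `F1` in `N` to `V + z` (`z ∉ I`) and then by `I`: `I + z - f`, `f ∉ V`. So `|F| ≤ |I|`. -/
def KzgStmt : Prop :=
  ∀ (α : Type) [DecidableEq α] (M N : Mat α) (s q : ℕ) (I V F : Finset α),
    CI M N s I → CI M N q F → s < q → V ⊆ I →
    ∃ z ∈ F, z ∉ I ∧ (M.Ind (insert z I) ∨ ∃ f ∈ V, Arc M I f z) ∧
      (N.Ind (insert z I) ∨ ∃ f ∈ I, f ∉ V ∧ Arc N I f z)

/-- KZA. Triangular exchange plus one free element. Proof: `TriStmt` for the base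
`P = insert z0 I` in the truncation `Ind J ∧ J.card ≤ I.card + 1`: arcs at `I` are arcs at `P` by
`LspStmt`, missing arcs at `P` are missing arcs at `I` (subset). -/
def KzaStmt : Prop :=
  ∀ (α : Type) [DecidableEq α] (M : Mat α) (I : Finset α) (z0 : α) (L : List (α × α)),
    z0 ∉ I → M.Ind (insert z0 I) →
    (∀ p ∈ L, p.1 ∉ I ∧ p.1 ≠ z0 ∧ p.2 ∈ I ∧ ¬ M.Ind (insert p.1 I) ∧ Arc M I p.2 p.1) →
    (L.map Prod.fst).Nodup → (L.map Prod.snd).Nodup →
    L.Pairwise (fun p q => ¬ Arc M I p.2 q.1) →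
    M.Ind ((I \ (L.map Prod.snd).toFinset) ∪ insert z0 (L.map Prod.fst).toFinset)

/-- KZT. Kotlar-Ziv for lists of sets. Proof: induction on the size reached; from a common
independent rainbow set `I` (index set `J`) of size `s < q` there are at least `q` unused indices
`j 1 < ... < j q`. An increasing path: `z 0, f 1, z 1, ..., f t` with `z i ∈ F (π i)`, `π`
increasing in the unused indices, `M.Ind (insert (z 0) I)`, `Arc N I (f (i+1)) (z i)`,
`Arc M I (f i) (z i)` for `i ≥ 1`. `V r` = elements `f` reached with indices among the first `r`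
unused ones. `KzgStmt` for `V r` and `F (j (r+1))` gives an augmenting path or a new element of
`V (r+1)`, so `|V r| ≥ r`, impossible for `r = q`. A shortest increasing augmenting path
`z 0, f 1, ..., f t, z t` (`N.Ind (insert (z t) I)`) has: `I + z i` `M`-dependent for `i ≥ 1`,
`N`-dependent for `i < t`, no `Arc M I (f i) (z j)` for `i < j`, no `Arc N I (f j) (z i)` for
`i + 1 < j` (shortcuts stay increasing), all `z i` distinct, all `f i` distinct; `KzaStmt` for
`M` (pairs `(z i, f i)`, free `z 0`) and for `N` (pairs `(z (i-1), f i)`, reversed order, free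
`z t`). -/
def KztStmt : Prop :=
  ∀ (α : Type) [DecidableEq α] (M N : Mat α) (q m : ℕ) (F : Fin m → Finset α),
    0 < q → (∀ i, CI M N q (F i)) → 2 * q ≤ m + 1 →
    ∃ (J : Finset (Fin m)) (x : Fin m → α), J.card = q ∧ Set.InjOn x (J : Set (Fin m)) ∧
      (∀ i ∈ J, x i ∈ F i) ∧ M.Ind (J.image x) ∧ N.Ind (J.image x)

/-- KTH. Three types. `KztStmt` for `b` copies of `S`, `a` copies of `T`, `c` copies of `U`. -/
def KthStmt : Prop :=
  ∀ (α : Type) [DecidableEq α] (M N : Mat α) (q : ℕ) (S T U : Finset α) (b a c : ℕ),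
    CI M N q S → CI M N q T → CI M N q U → Disjoint S T → Disjoint S U → Disjoint T U →
    2 * q ≤ b + a + c + 1 →
    ∃ J, CI M N q J ∧ J ⊆ S ∪ T ∪ U ∧ (J ∩ S).card ≤ b ∧ (J ∩ T).card ≤ a ∧ (J ∩ U).card ≤ c

/-- MAI. The theorem for disjoint sets: strong induction on `n`. Restrict `M, N` to
`S ∪ T ∪ U` and truncate to rank `n + 1`. Irreducible: `IrtStmt`. Otherwise `RedStmt`; if
`q ≤ p` fill `B` completely by `KthStmt` (`n ≥ 2 q - 1`), and use the induction hypothesis on `A`
with `p - 1 < n`; if `p < q` exchange the roles. -/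
def MaiStmt : Prop :=
  ∀ (α : Type) [DecidableEq α] (M N : Mat α) (n : ℕ) (S T U : Finset α) (b a c : ℕ),
    CI M N (n + 1) S → CI M N (n + 1) T → CI M N (n + 1) U →
    Disjoint S T → Disjoint S U → Disjoint T U → b + a + c = n →
    ∃ I, CI M N n I ∧ I ⊆ S ∪ T ∪ U ∧
      (I ∩ S).card = b ∧ (I ∩ T).card = a ∧ (I ∩ U).card = c

/-- PAR. Arbitrary three sets in Mathlib matroids, exact form: `b` elements of `A`, `a` of `B`,
`c` of `C`, altogether `n` distinct elements. Parallel copies: `Mat` on `Fin 3 × α` with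
`Ind I := (image of I under snd has the same size as I and is independent)`; `MaiStmt`. -/
def ParStmt : Prop :=
  ∀ (α : Type) [DecidableEq α] (M N : Matroid α) (n : ℕ) (A B C : Finset α) (b a c : ℕ),
    (M.Indep (A : Set α) ∧ N.Indep (A : Set α) ∧ A.card = n + 1) →
    (M.Indep (B : Set α) ∧ N.Indep (B : Set α) ∧ B.card = n + 1) →
    (M.Indep (C : Set α) ∧ N.Indep (C : Set α) ∧ C.card = n + 1) → b + a + c = n →
    ∃ A' B' C' : Finset α, A' ⊆ A ∧ B' ⊆ B ∧ C' ⊆ C ∧ A'.card = b ∧ B'.card = a ∧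
      C'.card = c ∧ Disjoint A' B' ∧ Disjoint A' C' ∧ Disjoint B' C' ∧
      M.Indep ((A' ∪ B' ∪ C' : Finset α) : Set α) ∧ N.Indep ((A' ∪ B' ∪ C' : Finset α) : Set α)

/-- FIN. The rainbow form: `n` sets of size `n + 1`, at most three distinct ones, have a full
rainbow common independent set. From `ParStmt` with the three multiplicities and bijections. -/
def FinStmt : Prop :=
  ∀ (α : Type) [DecidableEq α] (M N : Matroid α) (n : ℕ) (A B C : Finset α)
    (S : Fin n → Finset α),
    (M.Indep (A : Set α) ∧ N.Indep (A : Set α) ∧ A.card = n + 1) →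
    (M.Indep (B : Set α) ∧ N.Indep (B : Set α) ∧ B.card = n + 1) →
    (M.Indep (C : Set α) ∧ N.Indep (C : Set α) ∧ C.card = n + 1) →
    (∀ i, S i = A ∨ S i = B ∨ S i = C) →
    ∃ x : Fin n → α, Function.Injective x ∧ (∀ i, x i ∈ S i) ∧
      M.Indep (Set.range x) ∧ N.Indep (Set.range x)

end Pool.Agent.R3M
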